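import Pool.Agent.helper57.MS.Spec2

/-!
# MP_b48e27_co, row QMT: closure of the good families under common refinement (finite sides);
copy of the second part of TH2 (helper40)
-/

set_option autoImplicit false

open Finset Pool.Agent.RRank Pool.Agent.helper26.IM

namespace Pool.Agent.helper57.MS

theorem QMT_bound {ι : Type*} [Finite ι] (f : ι → ℕ) : ∃ B : ℕ, ∀ i, f i ≤ B := by
  obtain ⟨B, hB⟩ := (Set.finite_range f).bddAbove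
  exact ⟨B, fun i => hB ⟨i, rfl⟩⟩

theorem QMT (hTH2R : TH2R_stmt) (hSRK : SRK_stmt) : QMT_stmt := by
  intro d hd 𝓚 R R' hQ hQ' l
  obtain ⟨G₁, hG₁⟩ := hQ l
  obtain ⟨G₂, hG₂⟩ := hQ' l
  choose N₀ hN₀ using fun (x : Fin G₁ × Fin G₂) => hTH2R d x.1 x.2 hd R R'
  obtain ⟨B, hB⟩ := QMT_bound N₀
  refine ⟨B + 1, ?_⟩
  intro K iK h𝓚 Q _ T hT
  by_cases c1 : (G₁ : ℕ∞) ≤ rank R T
  · obtain ⟨X, hX, hX2⟩ := hG₁ K iK h𝓚 Q T c1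
    refine ⟨X, hX, hX2.trans ?_⟩
    refine (hSRK K d _ R (meet R R') ?_ _).2
    rintro P' ⟨P₁, h1, P₂, h2, rfl⟩
    exact ⟨P₁, h1, inf_le_left⟩
  by_cases c2 : (G₂ : ℕ∞) ≤ rank R' T
  · obtain ⟨X, hX, hX2⟩ := hG₂ K iK h𝓚 Q T c2
    refine ⟨X, hX, hX2.trans ?_⟩
    refine (hSRK K d _ R' (meet R R') ?_ _).2
    rintro P' ⟨P₁, h1, P₂, h2, rfl⟩
    exact ⟨P₂, h2, inf_le_right⟩
  obtain ⟨r₁, hr₁, hs₁⟩ := exists_sumOf_of_rank_lt (not_le.1 c1)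
  obtain ⟨r₂, hr₂, hs₂⟩ := exists_sumOf_of_rank_lt (not_le.1 c2)
  obtain ⟨N, hN, hs⟩ := hN₀ (⟨r₁, hr₁⟩, ⟨r₂, hr₂⟩) K Q T hs₁ hs₂
  exact absurd hs (not_sumOf_of_le_rank hT
    (lt_of_le_of_lt (hN.trans (hB (⟨r₁, hr₁⟩, ⟨r₂, hr₂⟩))) (Nat.lt_succ_self B)))

end Pool.Agent.helper57.MS
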