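import Pool.Agent.helper76.MS.FLocal
import Pool.Agent.helper91.MS.M0

open Bundle Manifold MeasureTheory Set Filter Topology
open scoped ContDiff ENNReal

namespace Pool.Agent.helper43.MS

theorem laplace_congr {m : ℕ} {G : E m → Matrix (Fin m) (Fin m) ℝ} {u v : E m → ℝ} {x : E m}
    (h : u =ᶠ[𝓝 x] v) : laplace G u x = laplace G v x := by
  unfold laplace
  congr 1
  refine Finset.sum_congr rfl fun i _ => pd_congr ?_
  have h1 : ∀ᶠ z in 𝓝 x, ∀ j, pd j u z = pd j v z := by
    rw [Filter.eventually_all]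
    intro j
    exact pd_eventually_congr h
  filter_upwards [h1] with z hz
  simp only [hz]

section F
variable {m n : ℕ} {M : Type*} [TopologicalSpace M] [ChartedSpace (E m) M]
  [IsManifold 𝓘(ℝ, E m) ∞ M]
  {N : Type*} [TopologicalSpace N] [ChartedSpace (E n) N] [IsManifold 𝓘(ℝ, E n) ∞ N]
  [RiemannianBundle (fun q : N => TangentSpace 𝓘(ℝ, E n) q)]
  [IsContMDiffRiemannianBundle 𝓘(ℝ, E n) ∞ (E n) (fun q : N => TangentSpace 𝓘(ℝ, E n) q)]

omit [RiemannianBundle (fun q : N => TangentSpace 𝓘(ℝ, E n) q)]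
  [IsContMDiffRiemannianBundle 𝓘(ℝ, E n) ∞ (E n) (fun q : N => TangentSpace 𝓘(ℝ, E n) q)] in
/-- a `C^k` function on `N`, in a chart -/
theorem contDiffAt_comp_chart_symm {k : ℕ∞} {q y : N} (hy : y ∈ (chartAt (E n) q).source)
    {f : N → ℝ} (hf : ContMDiffAt 𝓘(ℝ, E n) 𝓘(ℝ, ℝ) k f y) :
    ContDiffAt ℝ k (f ∘ (chartAt (E n) q).symm) (chartAt (E n) q y) := by
  rw [← contMDiffAt_iff_contDiffAt]
  have h1 : ContMDiffAt 𝓘(ℝ, E n) 𝓘(ℝ, E n) k (chartAt (E n) q).symm (chartAt (E n) q y) := by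
    have := (contMDiffOn_chart_symm (I := 𝓘(ℝ, E n)) (n := ∞) (x := q)).contMDiffAt
      ((chartAt (E n) q).open_target.mem_nhds ((chartAt (E n) q).map_source hy))
    exact this.of_le (by exact_mod_cast le_top)
  have h2 : (chartAt (E n) q).symm (chartAt (E n) q y) = y := (chartAt (E n) q).left_inv hy
  refine ContMDiffAt.comp (chartAt (E n) q y) (I' := 𝓘(ℝ, E n)) ?_ h1
  rw [h2]; exact hf

theorem laplace_comp {φ : M → N} (h : IsImm m n φ) (hmin : IsMinimal m n φ)
    {p : M} {q : N} {x : E m} (hx : x ∈ (chartAt (E m) p).target)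
    (hq : φ ((chartAt (E m) p).symm x) ∈ (chartAt (E n) q).source) {f : N → ℝ}
    (hf : ContMDiffAt 𝓘(ℝ, E n) 𝓘(ℝ, ℝ) 2 f (φ ((chartAt (E m) p).symm x))) :
    ∃ v : Fin m → E n, IsOrthoFamily (metricN q (locRep m n φ p q x)) v ∧
      laplace (metricM m n φ p) (fun z => f (φ ((chartAt (E m) p).symm z))) x =
        ∑ k, hess (metricN q) (f ∘ (chartAt (E n) q).symm) (locRep m n φ p q x) (v k) := by
  have hfh : ContDiffAt ℝ 2 (f ∘ (chartAt (E n) q).symm) (locRep m n φ p q x) :=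
    contDiffAt_comp_chart_symm (k := 2) hq hf
  have hcont : ContinuousAt (fun z => φ ((chartAt (E m) p).symm z)) x := by
    refine ContinuousAt.comp (g := φ) (h.1.continuous.continuousAt) ?_
    exact (chartAt (E m) p).symm.continuousAt (by simpa using hx)
  have hev : ∀ᶠ z in 𝓝 x, φ ((chartAt (E m) p).symm z) ∈ (chartAt (E n) q).source :=
    hcont.eventually ((chartAt (E n) q).open_source.mem_nhds hq)
  have hcongr : (fun z => f (φ ((chartAt (E m) p).symm z))) =ᶠ[𝓝 x]
      fun z => (f ∘ (chartAt (E n) q).symm) (locRep m n φ p q z) := by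
    filter_upwards [hev] with z hz
    simp only [locRep, Function.comp_apply, (chartAt (E n) q).left_inv hz]
  rw [laplace_congr hcongr]
  refine laplace_comp_core (φ := locRep m n φ p q)
    (fun i j => ?_) (metricM_posDef h hx) ((locRep_contDiffAt h hx hq).of_le ?_) hfh
    (fun i j => metricM_eq h hx hq i j) (fun a => hmin p q x hx hq a)
  · exact ((metricM_contDiffOn h p i j).contDiffAt
      ((chartAt (E m) p).open_target.mem_nhds hx)).of_le (by exact_mod_cast le_top)
  · exact WithTop.coe_le_coe.2 (le_top : (2 : ℕ∞) ≤ ⊤)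

end F
end Pool.Agent.helper43.MS
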