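import Pool.Agent.helper43.MS.Pd

open Bundle Manifold MeasureTheory Set Filter Topology
open scoped ContDiff ENNReal

namespace Pool.Agent.helper43.MS

variable {m n : ℕ}

/-- The determinant of a matrix of `C^k` functions is `C^k`. -/
theorem contDiffAt_det {k : WithTop ℕ∞} {X : Type*} [NormedAddCommGroup X] [NormedSpace ℝ X]
    {ι : Type*} [Fintype ι] [DecidableEq ι] {A : X → Matrix ι ι ℝ} {x : X}
    (hA : ∀ i j, ContDiffAt ℝ k (fun z => A z i j) x) : ContDiffAt ℝ k (fun z => (A z).det) x := by
  simp only [Matrix.det_apply]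
  refine ContDiffAt.sum fun σ _ => ?_
  refine ContDiffAt.const_smul _ ?_
  exact contDiffAt_prod fun i _ => hA _ _

/-- The entries of the inverse of an invertible matrix of `C^k` functions are `C^k`. -/
theorem contDiffAt_matrix_inv {k : WithTop ℕ∞} {X : Type*} [NormedAddCommGroup X]
    [NormedSpace ℝ X] {ι : Type*} [Fintype ι] [DecidableEq ι] {A : X → Matrix ι ι ℝ} {x : X}
    (hA : ∀ i j, ContDiffAt ℝ k (fun z => A z i j) x) (hdet : (A x).det ≠ 0) (i j : ι) :
    ContDiffAt ℝ k (fun z => (A z)⁻¹ i j) x := by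
  have h1 : (fun z => (A z)⁻¹ i j) = fun z => ((A z).det)⁻¹ * (A z).adjugate i j := by
    funext z
    rw [Matrix.inv_def, Ring.inverse_eq_inv]; rfl
  rw [h1]
  refine ContDiffAt.mul ((contDiffAt_det hA).inv hdet) ?_
  simp only [Matrix.adjugate_apply]
  refine contDiffAt_det fun a b => ?_
  simp only [Matrix.updateRow_apply]
  split_ifs
  · exact contDiffAt_const
  · exact hA a b

theorem laplace_comp_local {G : E m → Matrix (Fin m) (Fin m) ℝ} {φ : E m → E n} {f : E n → ℝ}
    {x : E m} (hG : ∀ i j, ContDiffAt ℝ 1 (fun z => G z i j) x) (hpos : (G x).PosDef)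
    (hφ : ContDiffAt ℝ 2 φ x) (hf : ContDiffAt ℝ 2 f (φ x)) :
    laplace G (fun z => f (φ z)) x =
      ∑ a, pd a f (φ x) * laplace G (fun z => φ z a) x +
        ∑ a, ∑ b, pd a (pd b f) (φ x) *
          ∑ i, ∑ j, (G x)⁻¹ i j * pd i (fun z => φ z a) x * pd j (fun z => φ z b) x := by
  have hdet : 0 < (G x).det := hpos.det_pos
  have hφa (a : Fin n) : ContDiffAt ℝ 2 (fun z => φ z a) x :=
    (contDiff_coord (k := 2) a).contDiffAt.comp x hφ
  have hpφ (a : Fin n) (i : Fin m) : ContDiffAt ℝ 1 (pd i (fun z => φ z a)) x :=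
    contDiffAt_pd (hφa a) (by norm_num)
  have hsq : ContDiffAt ℝ 1 (fun z => √((G z).det)) x :=
    (contDiffAt_det hG).sqrt hdet.ne'
  set W : Fin n → Fin m → E m → ℝ := fun a i z =>
    √((G z).det) * ∑ j, (G z)⁻¹ i j * pd j (fun z => φ z a) z with hW
  have hWd (a : Fin n) (i : Fin m) : ContDiffAt ℝ 1 (W a i) x := by
    refine hsq.mul (ContDiffAt.sum fun j _ => ?_)
    exact (contDiffAt_matrix_inv hG hdet.ne' i j).mul (hpφ a j)
  have hfa (a : Fin n) : ContDiffAt ℝ 1 (pd a f) (φ x) := contDiffAt_pd hf (by norm_num)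
  have hfφ (a : Fin n) : ContDiffAt ℝ 1 (fun z => pd a f (φ z)) x :=
    (hfa a).comp x (hφ.of_le (by norm_num))
  -- step 1
  have hev1 : ∀ᶠ z in 𝓝 x, DifferentiableAt ℝ φ z := by
    have := (hφ.of_le (m := 1) (by norm_num)).eventually (by simp)
    filter_upwards [this] with z hz using hz.differentiableAt (by norm_num)
  have hev2 : ∀ᶠ z in 𝓝 x, DifferentiableAt ℝ f (φ z) := by
    have := (hf.of_le (m := 1) (by norm_num)).eventually (by simp)
    have := hφ.continuousAt.eventually this
    filter_upwards [this] with z hz using hz.differentiableAt (by norm_num)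
  have hstep1 (i : Fin m) : (fun z => √((G z).det) * ∑ j, (G z)⁻¹ i j *
      pd j (fun z => f (φ z)) z) =ᶠ[𝓝 x] fun z => ∑ a, pd a f (φ z) * W a i z := by
    filter_upwards [hev1, hev2] with z h1 h2
    simp only [hW, Finset.mul_sum, pd_comp h2 h1]
    rw [Finset.sum_comm]
    refine Finset.sum_congr rfl fun a _ => Finset.sum_congr rfl fun j _ => ?_
    ring
  have hstep2 (i : Fin m) : pd i (fun z => √((G z).det) * ∑ j, (G z)⁻¹ i j *
      pd j (fun z => f (φ z)) z) x = ∑ a, (pd a f (φ x) * pd i (W a i) x +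
        W a i x * ∑ b, pd b (pd a f) (φ x) * pd i (fun z => φ z b) x) := by
    rw [pd_congr (hstep1 i), pd_sum (f := fun a z => pd a f (φ z) * W a i z) fun a _ =>
      ((hfφ a).differentiableAt (by norm_num)).mul ((hWd a i).differentiableAt (by norm_num))]
    refine Finset.sum_congr rfl fun a _ => ?_
    rw [pd_mul ((hfφ a).differentiableAt (by norm_num)) ((hWd a i).differentiableAt (by norm_num)),
      pd_comp ((hfa a).differentiableAt (by norm_num)) (hφ.differentiableAt (by norm_num))]
  have hs0 : √((G x).det) ≠ 0 := (Real.sqrt_pos.2 hdet).ne'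
  unfold laplace
  rw [Finset.sum_congr rfl fun i _ => hstep2 i]
  have e1 : ∀ a, ∑ i, pd i (fun z => √((G z).det) * ∑ j, (G z)⁻¹ i j *
      pd j (fun z => φ z a) z) x = ∑ i, pd i (W a i) x := fun a => rfl
  simp only [e1, Finset.sum_add_distrib, mul_add]
  congr 1
  · rw [Finset.sum_comm, Finset.mul_sum]
    refine Finset.sum_congr rfl fun a _ => ?_
    rw [← Finset.mul_sum]; ring
  · have hsymm : ∀ i j, (G x)⁻¹ i j = (G x)⁻¹ j i := fun i j => by
      have := hpos.inv.isHermitian.apply i j
      simpa using this.symm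
    have key : ∀ a b, ∑ i, W a i x * pd i (fun z => φ z b) x = √((G x).det) *
        ∑ i, ∑ j, (G x)⁻¹ i j * pd i (fun z => φ z b) x * pd j (fun z => φ z a) x := by
      intro a b
      simp only [hW, Finset.mul_sum, Finset.sum_mul]
      refine Finset.sum_congr rfl fun i _ => Finset.sum_congr rfl fun j _ => ?_
      ring
    calc 1 / √((G x).det) * ∑ i, ∑ a, W a i x * ∑ b, pd b (pd a f) (φ x) *
          pd i (fun z => φ z b) x
        = 1 / √((G x).det) * ∑ a, ∑ b, pd b (pd a f) (φ x) *
          ∑ i, W a i x * pd i (fun z => φ z b) x := by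
          congr 1
          rw [Finset.sum_comm]
          refine Finset.sum_congr rfl fun a _ => ?_
          simp only [Finset.mul_sum]
          rw [Finset.sum_comm]
          refine Finset.sum_congr rfl fun b _ => Finset.sum_congr rfl fun i _ => ?_
          ring
      _ = _ := by
          simp only [key]
          rw [Finset.sum_comm, Finset.mul_sum]
          refine Finset.sum_congr rfl fun a _ => ?_
          rw [Finset.mul_sum]
          refine Finset.sum_congr rfl fun b _ => ?_
          field_simp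

/-- A positive definite `m × m` matrix `G` has an `A` with `A^T A = G⁻¹` and `A G A^T = 1`. -/
theorem exists_inv_root {G : Matrix (Fin m) (Fin m) ℝ} (hG : G.PosDef) :
    ∃ A : Matrix (Fin m) (Fin m) ℝ, A.transpose * A = G⁻¹ ∧ A * G * A.transpose = 1 := by
  open scoped MatrixOrder in
  obtain ⟨A, hA⟩ := CStarAlgebra.nonneg_iff_eq_star_mul_self.mp hG.inv.posSemidef.nonneg
  have hA' : A.transpose * A = G⁻¹ := by
    rw [hA, Matrix.star_eq_conjTranspose, Matrix.conjTranspose_eq_transpose_of_trivial]
  refine ⟨A, hA', ?_⟩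
  have hGu : IsUnit G.det := (Matrix.isUnit_iff_isUnit_det _).1 hG.isUnit
  have h1 : A.transpose * (A * G) = 1 := by
    rw [← Matrix.mul_assoc, hA', Matrix.nonsing_inv_mul _ hGu]
  exact mul_eq_one_comm.1 h1

/-- The chain rule for the Laplacian along a map which is an isometric immersion at `x`, and the
orthonormal family. -/
theorem laplace_comp_core {G : E m → Matrix (Fin m) (Fin m) ℝ}
    {g : E n → Matrix (Fin n) (Fin n) ℝ} {φ : E m → E n} {f : E n → ℝ}
    {x : E m} (hG : ∀ i j, ContDiffAt ℝ 1 (fun z => G z i j) x) (hpos : (G x).PosDef)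
    (hφ : ContDiffAt ℝ 2 φ x) (hf : ContDiffAt ℝ 2 f (φ x))
    (hGg : ∀ i j, G x i j = ∑ a, ∑ b, g (φ x) a b *
      pd i (fun z => φ z a) x * pd j (fun z => φ z b) x)
    (hmin : ∀ a, laplace G (fun z => φ z a) x + ∑ b, ∑ c, christoffel g (φ x) a b c *
      ∑ i, ∑ j, (G x)⁻¹ i j * pd i (fun z => φ z b) x * pd j (fun z => φ z c) x = 0) :
    ∃ v : Fin m → E n, IsOrthoFamily (g (φ x)) v ∧
      laplace G (fun z => f (φ z)) x = ∑ k, hess g f (φ x) (v k) := by
  obtain ⟨A, hA1, hA2⟩ := exists_inv_root hpos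
  set v : Fin m → E n := fun k => WithLp.toLp 2 fun a => ∑ i, A k i * pd i (fun z => φ z a) x
    with hv
  have hva (k : Fin m) (a : Fin n) : v k a = ∑ i, A k i * pd i (fun z => φ z a) x := rfl
  have hvv (a b : Fin n) : ∑ k, v k a * v k b =
      ∑ i, ∑ j, (G x)⁻¹ i j * pd i (fun z => φ z a) x * pd j (fun z => φ z b) x := by
    have hinv (i j : Fin m) : (G x)⁻¹ i j = ∑ k, A k i * A k j := by
      rw [← hA1, Matrix.mul_apply]; rfl
    simp only [hva, hinv, Finset.sum_mul, Finset.mul_sum]
    rw [Finset.sum_comm]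
    refine Eq.symm ?_
    rw [Finset.sum_comm]
    refine Finset.sum_congr rfl fun j _ => ?_
    rw [Finset.sum_comm]
    refine Finset.sum_congr rfl fun k _ => Finset.sum_congr rfl fun i _ => ?_
    ring
  refine ⟨v, ?_, ?_⟩
  · intro k l
    have h2 : (A * G x * A.transpose) k l = if k = l then 1 else 0 := by
      rw [hA2, Matrix.one_apply]
    rw [← h2]
    simp only [Matrix.mul_apply, Matrix.transpose_apply, hGg, hva, Finset.sum_mul, Finset.mul_sum]
    -- LHS: ∑ a, ∑ b, ∑ j, ∑ i ; RHS: ∑ j, ∑ i, ∑ a, ∑ b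
    calc ∑ a, ∑ b, ∑ j, ∑ i, g (φ x) a b * (A k i * pd i (fun z => φ z a) x) *
          (A l j * pd j (fun z => φ z b) x)
        = ∑ a, ∑ j, ∑ b, ∑ i, g (φ x) a b * (A k i * pd i (fun z => φ z a) x) *
          (A l j * pd j (fun z => φ z b) x) := by
          refine Finset.sum_congr rfl fun a _ => ?_
          rw [Finset.sum_comm]
      _ = ∑ j, ∑ a, ∑ b, ∑ i, g (φ x) a b * (A k i * pd i (fun z => φ z a) x) *
          (A l j * pd j (fun z => φ z b) x) := by rw [Finset.sum_comm]
      _ = ∑ j, ∑ a, ∑ i, ∑ b, g (φ x) a b * (A k i * pd i (fun z => φ z a) x) *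
          (A l j * pd j (fun z => φ z b) x) := by
          refine Finset.sum_congr rfl fun j _ => Finset.sum_congr rfl fun a _ => ?_
          rw [Finset.sum_comm]
      _ = ∑ j, ∑ i, ∑ a, ∑ b, g (φ x) a b * (A k i * pd i (fun z => φ z a) x) *
          (A l j * pd j (fun z => φ z b) x) := by
          refine Finset.sum_congr rfl fun j _ => ?_
          rw [Finset.sum_comm]
      _ = _ := by
          refine Finset.sum_congr rfl fun j _ => Finset.sum_congr rfl fun i _ =>
            Finset.sum_congr rfl fun a _ => Finset.sum_congr rfl fun b _ => ?_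
          ring
  · rw [laplace_comp_local hG hpos hφ hf]
    have hmin' (a : Fin n) : laplace G (fun z => φ z a) x = - ∑ b, ∑ c,
        christoffel g (φ x) a b c * ∑ k, v k b * v k c := by
      simp only [hvv]
      linarith [hmin a]
    simp only [hmin', ← hvv, hess]
    -- everything in terms of v
    have e1 : ∑ a, pd a f (φ x) * -∑ b, ∑ c, christoffel g (φ x) a b c * ∑ k, v k b * v k c =
        ∑ k, ∑ a, ∑ b, (- ∑ c, christoffel g (φ x) c a b * pd c f (φ x)) * v k a * v k b := by
      simp only [Finset.mul_sum, Finset.sum_mul, mul_neg, neg_mul, Finset.sum_neg_distrib]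
      congr 1
      calc ∑ a, ∑ b, ∑ c, ∑ k, pd a f (φ x) * (christoffel g (φ x) a b c * (v k b * v k c))
          = ∑ b, ∑ a, ∑ c, ∑ k, pd a f (φ x) *
            (christoffel g (φ x) a b c * (v k b * v k c)) := by rw [Finset.sum_comm]
        _ = ∑ b, ∑ c, ∑ a, ∑ k, pd a f (φ x) *
            (christoffel g (φ x) a b c * (v k b * v k c)) := by
            refine Finset.sum_congr rfl fun b _ => ?_
            rw [Finset.sum_comm]
        _ = ∑ b, ∑ c, ∑ k, ∑ a, pd a f (φ x) *
            (christoffel g (φ x) a b c * (v k b * v k c)) := by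
            refine Finset.sum_congr rfl fun b _ => Finset.sum_congr rfl fun c _ => ?_
            rw [Finset.sum_comm]
        _ = ∑ b, ∑ k, ∑ c, ∑ a, pd a f (φ x) *
            (christoffel g (φ x) a b c * (v k b * v k c)) := by
            refine Finset.sum_congr rfl fun b _ => ?_
            rw [Finset.sum_comm]
        _ = ∑ k, ∑ b, ∑ c, ∑ a, pd a f (φ x) *
            (christoffel g (φ x) a b c * (v k b * v k c)) := by rw [Finset.sum_comm]
        _ = _ := by
            refine Finset.sum_congr rfl fun k _ => Finset.sum_congr rfl fun a _ =>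
              Finset.sum_congr rfl fun b _ => Finset.sum_congr rfl fun c _ => ?_
            ring
    have e2 : ∑ a, ∑ b, pd a (pd b f) (φ x) * ∑ k, v k a * v k b =
        ∑ k, ∑ a, ∑ b, pd a (pd b f) (φ x) * v k a * v k b := by
      simp only [Finset.mul_sum]
      calc ∑ a, ∑ b, ∑ k, pd a (pd b f) (φ x) * (v k a * v k b)
          = ∑ a, ∑ k, ∑ b, pd a (pd b f) (φ x) * (v k a * v k b) := by
            refine Finset.sum_congr rfl fun a _ => ?_
            rw [Finset.sum_comm]
        _ = ∑ k, ∑ a, ∑ b, pd a (pd b f) (φ x) * (v k a * v k b) := by rw [Finset.sum_comm]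
        _ = _ := by
            refine Finset.sum_congr rfl fun k _ => Finset.sum_congr rfl fun a _ =>
              Finset.sum_congr rfl fun b _ => ?_
            ring
    rw [e1, e2, ← Finset.sum_add_distrib]
    refine Finset.sum_congr rfl fun k _ => ?_
    rw [← Finset.sum_add_distrib]
    refine Finset.sum_congr rfl fun a _ => ?_
    rw [← Finset.sum_add_distrib]
    refine Finset.sum_congr rfl fun b _ => ?_
    ring

end Pool.Agent.helper43.MS
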